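import Pool.Agent.Run7.h507.KR.Defs

/-!
# Project KR (helper507), piece REC (helper354, independent copy)
-/

set_option autoImplicit false

open Filter Topology

namespace Pool.Agent.Run7.h354.KR.R

open Pool.Agent.Run7.h507.KR

lemma step_calc (s p a x : ℝ) (ha : 0 < a) (ha1 : a ≤ 1) (hx : 0 < x) :
    (8 / 25 * x + 1) * (s * p * (a * (17 / 50) / (a * (17 / 50) + 8 / 25 * (17 / 50 * x)))) -
      8 / 25 * (x - 1) * (s * p * (a * (17 / 50) / (a * (17 / 50) + 8 / 25 * x))) -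
      (1 + 8 / 25) * (s * p) =
    s * p * (1 - a) * (a / (a + 8 / 25 * x) - 1) -
      (-s) * (p * ((8 / 25 + a * (17 / 50)) / (1 - a * (17 / 50)))) * (1 - a * (17 / 50)) *
        (a * (17 / 50) / (a * (17 / 50) + 8 / 25 * x) - 1) := by
  have h1 : a * (17 / 50) + 8 / 25 * x ≠ 0 := by positivity
  have h2 : a + 8 / 25 * x ≠ 0 := by positivity
  have h3 : (1 : ℝ) - a * (17 / 50) ≠ 0 := by
    have : 0 < 1 - a * (17 / 50) := by linarith
    exact this.ne'
  have e1 : a * (17 / 50) / (a * (17 / 50) + 8 / 25 * (17 / 50 * x)) = a / (a + 8 / 25 * x) := by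
    have h4 : a * (17 / 50) + 8 / 25 * (17 / 50 * x) = (a + 8 / 25 * x) * (17 / 50) := by ring
    rw [h4, mul_div_mul_right _ _ (by norm_num)]
  have e2 : (p * ((8 / 25 + a * (17 / 50)) / (1 - a * (17 / 50)))) * (1 - a * (17 / 50)) =
      p * (8 / 25 + a * (17 / 50)) := by
    rw [mul_assoc, div_mul_cancel₀ _ h3]
  obtain ⟨u, hu⟩ : ∃ u, u = a / (a + 8 / 25 * x) := ⟨_, rfl⟩
  obtain ⟨v, hv⟩ : ∃ v, v = a * (17 / 50) / (a * (17 / 50) + 8 / 25 * x) := ⟨_, rfl⟩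
  have hu1 : u * (a + 8 / 25 * x) = a := by rw [hu, div_mul_cancel₀ _ h2]
  have hv1 : v * (a * (17 / 50) + 8 / 25 * x) = a * (17 / 50) := by
    rw [hv, div_mul_cancel₀ _ h1]
  rw [e1, ← hu, ← hv]
  have e3 : (-s) * (p * ((8 / 25 + a * (17 / 50)) / (1 - a * (17 / 50)))) *
      (1 - a * (17 / 50)) * (v - 1) = (-s) * (p * (8 / 25 + a * (17 / 50))) * (v - 1) := by
    rw [mul_assoc (-s), e2]
  rw [e3]
  linear_combination (s * p) * hu1 - (s * p) * hv1

theorem t_REC (hPP : S_PP) : S_REC := by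
  intro x hx
  obtain ⟨hpos, hanti, hsum, -⟩ := hPP
  have hs0 : Summable (fun m : ℕ => (-1 : ℝ) ^ m * P m) := by
    apply Summable.of_norm
    refine hsum.congr fun m => ?_
    rw [norm_mul, norm_pow, norm_neg, norm_one, one_pow, one_mul,
      Real.norm_of_nonneg (hpos m).le]
  have hrat : ∀ (a y : ℝ), 0 < a → 0 < y → 0 ≤ a / (a + 8 / 25 * y) ∧
      a / (a + 8 / 25 * y) ≤ 1 := fun a y ha hy => by
    refine ⟨by positivity, ?_⟩
    rw [div_le_one (by positivity)]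
    have : 0 < 8 / 25 * y := by positivity
    linarith
  have hsT : ∀ y : ℝ, 0 < y → Summable (fun m : ℕ => (-1 : ℝ) ^ m * P m *
      ((17 / 50) ^ (m + 1) / ((17 / 50) ^ (m + 1) + 8 / 25 * y))) := by
    intro y hy
    apply Summable.of_norm
    refine Summable.of_nonneg_of_le (fun m => norm_nonneg _) (fun m => ?_) hsum
    have h1 := hrat ((17 / 50) ^ (m + 1)) y (by positivity) hy
    rw [norm_mul, norm_mul, norm_pow, norm_neg, norm_one, one_pow, one_mul,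
      Real.norm_of_nonneg (hpos m).le, Real.norm_of_nonneg h1.1]
    calc P m * _ ≤ P m * 1 := mul_le_mul_of_nonneg_left h1.2 (hpos m).le
      _ = P m := mul_one _
  have hqx : (0 : ℝ) < 17 / 50 * x := by positivity
  have h1 : HasSum (fun m : ℕ => (-1 : ℝ) ^ m * P m *
      ((17 / 50) ^ (m + 1) / ((17 / 50) ^ (m + 1) + 8 / 25 * (17 / 50 * x)))) (T (17 / 50 * x)) :=
    (hsT _ hqx).hasSum
  have h2 : HasSum (fun m : ℕ => (-1 : ℝ) ^ m * P m *
      ((17 / 50) ^ (m + 1) / ((17 / 50) ^ (m + 1) + 8 / 25 * x))) (T x) := (hsT _ hx).hasSum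
  have h3 : HasSum (fun m : ℕ => (-1 : ℝ) ^ m * P m) T0 := hs0.hasSum
  have h4 := ((h1.mul_left (8 / 25 * x + 1)).sub (h2.mul_left (8 / 25 * (x - 1)))).sub
    (h3.mul_left (1 + 8 / 25))
  have ht := h4.tendsto_sum_nat
  have key : ∀ n : ℕ, ∑ i ∈ Finset.range n,
      ((8 / 25 * x + 1) * ((-1 : ℝ) ^ i * P i *
        ((17 / 50) ^ (i + 1) / ((17 / 50) ^ (i + 1) + 8 / 25 * (17 / 50 * x)))) -
      8 / 25 * (x - 1) * ((-1 : ℝ) ^ i * P i *
        ((17 / 50) ^ (i + 1) / ((17 / 50) ^ (i + 1) + 8 / 25 * x))) -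
      (1 + 8 / 25) * ((-1 : ℝ) ^ i * P i)) =
      -((-1 : ℝ) ^ n * P n * (1 - (17 / 50) ^ n) *
        ((17 / 50) ^ n / ((17 / 50) ^ n + 8 / 25 * x) - 1)) := by
    intro n
    induction n with
    | zero => simp
    | succ n ih =>
      have ha1 : (17 / 50 : ℝ) ^ n ≤ 1 := pow_le_one₀ (by norm_num) (by norm_num)
      have h5 := step_calc ((-1) ^ n) (P n) ((17 / 50) ^ n) x (by positivity) ha1 hx
      rw [Finset.sum_range_succ, ih]
      have h6 : P (n + 1) = P n * ((8 / 25 + (17 / 50) ^ n * (17 / 50)) /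
          (1 - (17 / 50) ^ n * (17 / 50))) := by
        rw [P, pow_succ]
      rw [h6, pow_succ (17 / 50 : ℝ) n, pow_succ (-1 : ℝ) n, h5]
      ring
  have hW : Tendsto (fun n : ℕ => -((-1 : ℝ) ^ n * P n * (1 - (17 / 50) ^ n) *
      ((17 / 50) ^ n / ((17 / 50) ^ n + 8 / 25 * x) - 1))) atTop (𝓝 0) := by
    refine squeeze_zero_norm (fun n => ?_) hsum.tendsto_atTop_zero
    have ha1 : (17 / 50 : ℝ) ^ n ≤ 1 := pow_le_one₀ (by norm_num) (by norm_num)
    have ha0 : (0 : ℝ) < (17 / 50) ^ n := by positivity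
    have h7 := hrat ((17 / 50) ^ n) x ha0 hx
    rw [norm_neg, norm_mul, norm_mul, norm_mul, norm_pow, norm_neg, norm_one, one_pow, one_mul,
      Real.norm_of_nonneg (hpos n).le, Real.norm_of_nonneg (by linarith : (0 : ℝ) ≤ 1 - (17 / 50) ^ n),
      Real.norm_of_nonpos (by linarith)]
    have h8 : (1 - (17 / 50 : ℝ) ^ n) * -((17 / 50) ^ n / ((17 / 50) ^ n + 8 / 25 * x) - 1) ≤ 1 := by
      have h9 : (1 - (17 / 50 : ℝ) ^ n) ≤ 1 := by linarith
      have h10 : -((17 / 50 : ℝ) ^ n / ((17 / 50) ^ n + 8 / 25 * x) - 1) ≤ 1 := by linarith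
      calc _ ≤ (1 : ℝ) * 1 := mul_le_mul h9 h10 (by linarith) (by norm_num)
        _ = 1 := one_mul 1
    rw [mul_assoc]
    calc P n * _ ≤ P n * 1 := mul_le_mul_of_nonneg_left h8 (hpos n).le
      _ = P n := mul_one _
  have hlim := tendsto_nhds_unique ht ((tendsto_congr key).2 hW)
  linarith

end Pool.Agent.Run7.h354.KR.R
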