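import Pool.Agent.Run7.h507.KR.Defs

/-!
# Project KR (helper507), piece T0B (helper354)
-/

set_option autoImplicit false

open Filter Topology

namespace Pool.Agent.Run7.h354.KR

open Pool.Agent.Run7.h507.KR

lemma P_zero : P 0 = 1 := rfl

lemma P_one : P 1 = 1 := by
  rw [P, P]
  norm_num

lemma P_two : P 2 = 4356 / 8844 := by
  rw [P, P_one]
  norm_num

lemma P_three : P 3 = 4356 / 8844 * (359304 / 960696) := by
  rw [P, P_two]
  norm_num

lemma neg_even (k : ℕ) : (-1 : ℝ) ^ (2 * k) = 1 := by rw [pow_mul]; norm_num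

lemma neg_odd (k : ℕ) : (-1 : ℝ) ^ (2 * k + 1) = -1 := by rw [pow_succ, neg_even]; norm_num

theorem t_T0B (hPP : S_PP) : S_T0B := by
  obtain ⟨hpos, hanti, hsum, -⟩ := hPP
  have hs1 : Summable (fun m : ℕ => (-1 : ℝ) ^ m * P m) := by
    apply Summable.of_norm
    refine hsum.congr fun m => ?_
    rw [norm_mul, norm_pow, norm_neg, norm_one, one_pow, one_mul,
      Real.norm_of_nonneg (hpos m).le]
  have ht1 : Tendsto (fun n => ∑ i ∈ Finset.range n, (-1 : ℝ) ^ i * P i) atTop (𝓝 T0) :=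
    hs1.hasSum.tendsto_sum_nat
  have hT0 : 308 / 1000 ≤ T0 := by
    have h1 := hanti.alternating_series_le_tendsto ht1 2
    rw [show 2 * 2 = 3 + 1 from rfl, Finset.sum_range_succ, Finset.sum_range_succ,
      Finset.sum_range_succ, Finset.sum_range_succ, Finset.sum_range_zero, P_zero, P_one, P_two,
      P_three] at h1
    refine le_trans ?_ h1
    norm_num
  have hT0p : 0 < T0 := by linarith
  obtain ⟨s, hs⟩ : ∃ s : ℕ → ℝ, ∀ n, s n = ∑ i ∈ Finset.range n, (-1 : ℝ) ^ i * P i :=
    ⟨_, fun _ => rfl⟩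
  have hB : ∀ m, B m = s (m + 1) / T0 := fun m => by rw [hs]; rfl
  have e1 : ∀ k, s (2 * k + 1) = s (2 * k) + P (2 * k) := fun k => by
    rw [hs, hs, Finset.sum_range_succ, neg_even, one_mul]
  have e2 : ∀ k, s (2 * k + 2) = s (2 * k + 1) - P (2 * k + 1) := fun k => by
    rw [hs, hs, Finset.sum_range_succ _ (2 * k + 1), neg_odd]
    ring
  have a1 : ∀ k, 0 ≤ s (2 * k) := by
    intro k
    induction k with
    | zero => rw [hs]; simp
    | succ k ih =>
      have h1 : 2 * (k + 1) = 2 * k + 2 := by ring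
      have h2 := hanti (Nat.le_succ (2 * k))
      rw [h1, e2, e1]
      simp only [Nat.succ_eq_add_one] at h2
      linarith
  have a2 : ∀ k, 0 ≤ s (2 * k + 1) := fun k => by
    rw [e1]
    have := a1 k
    have := (hpos (2 * k)).le
    linarith
  have b1 : ∀ k, s (2 * (k + 1) + 1) ≤ P 2 := by
    intro k
    induction k with
    | zero =>
      rw [hs, show 2 * (0 + 1) + 1 = 2 + 1 from rfl, Finset.sum_range_succ, Finset.sum_range_succ,
        Finset.sum_range_succ, Finset.sum_range_zero, P_zero, P_one]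
      norm_num
    | succ k ih =>
      have h1 : 2 * (k + 1 + 1) + 1 = 2 * (k + 2) + 1 := by ring
      have h2 : 2 * (k + 2) = 2 * (k + 1) + 2 := by ring
      have h3 := hanti (Nat.le_succ (2 * (k + 1) + 1))
      simp only [Nat.succ_eq_add_one] at h3
      rw [h1, e1, h2, e2]
      have h4 : 2 * (k + 1) + 1 + 1 = 2 * (k + 1) + 2 := by ring
      rw [h4] at h3
      linarith
  have b2 : ∀ k, s (2 * (k + 1) + 2) ≤ P 2 := fun k => by
    rw [e2]
    have := b1 k
    have := (hpos (2 * (k + 1) + 1)).le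
    linarith
  refine ⟨hT0, ?_, ?_, ?_, ?_, ?_⟩
  · -- T 1
    obtain ⟨f, hf⟩ : ∃ f : ℕ → ℝ, ∀ m, f m =
        P m * ((17 / 50) ^ (m + 1) / ((17 / 50) ^ (m + 1) + 8 / 25 * 1)) := ⟨_, fun _ => rfl⟩
    have hq : ∀ m : ℕ, (0 : ℝ) < (17 / 50) ^ (m + 1) := fun m => by positivity
    have hr0 : ∀ m : ℕ, (0 : ℝ) ≤ (17 / 50) ^ (m + 1) / ((17 / 50) ^ (m + 1) + 8 / 25 * 1) :=
      fun m => by have := hq m; positivity
    have hr1 : ∀ m : ℕ, (17 / 50 : ℝ) ^ (m + 1) / ((17 / 50) ^ (m + 1) + 8 / 25 * 1) ≤ 1 :=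
      fun m => by
        have := hq m
        rw [div_le_one (by positivity)]
        linarith
    have hfa : Antitone f := by
      intro m n hmn
      rw [hf, hf]
      apply mul_le_mul (hanti hmn) _ (hr0 n) (hpos m).le
      have h1 : (17 / 50 : ℝ) ^ (n + 1) ≤ (17 / 50) ^ (m + 1) :=
        pow_le_pow_of_le_one (by norm_num) (by norm_num) (by omega)
      have h2 := hq m
      have h3 := hq n
      rw [div_le_div_iff₀ (by positivity) (by positivity)]
      nlinarith
    have hfs : Summable f := by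
      refine Summable.of_nonneg_of_le (fun m => ?_) (fun m => ?_) hsum
      · rw [hf]
        exact mul_nonneg (hpos m).le (hr0 m)
      · rw [hf]
        calc P m * _ ≤ P m * 1 := mul_le_mul_of_nonneg_left (hr1 m) (hpos m).le
          _ = P m := mul_one _
    have hs2 : Summable (fun m : ℕ => (-1 : ℝ) ^ m * f m) := by
      apply Summable.of_norm
      refine hfs.congr fun m => ?_
      rw [norm_mul, norm_pow, norm_neg, norm_one, one_pow, one_mul, Real.norm_of_nonneg]
      rw [hf]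
      exact mul_nonneg (hpos m).le (hr0 m)
    have hT : T 1 = ∑' m : ℕ, (-1 : ℝ) ^ m * f m := by
      unfold T
      refine tsum_congr fun m => ?_
      rw [hf, mul_assoc]
    have ht2 : Tendsto (fun n => ∑ i ∈ Finset.range n, (-1 : ℝ) ^ i * f i) atTop (𝓝 (T 1)) := by
      rw [hT]
      exact hs2.hasSum.tendsto_sum_nat
    have h1 := hfa.tendsto_le_alternating_series ht2 1
    rw [show 2 * 1 + 1 = 2 + 1 from rfl, Finset.sum_range_succ, Finset.sum_range_succ,
      Finset.sum_range_succ, Finset.sum_range_zero, hf, hf, hf, P_zero, P_one, P_two] at h1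
    refine h1.trans ?_
    norm_num
  · intro m
    rw [hB]
    apply div_nonneg _ hT0p.le
    rcases Nat.even_or_odd' (m + 1) with ⟨k, hk | hk⟩
    · rw [hk]; exact a1 k
    · rw [hk]; exact a2 k
  · rw [hB, hs]
    simp [P_zero]
  · rw [hB, hs, show 1 + 1 = 1 + 1 from rfl, Finset.sum_range_succ, Finset.sum_range_succ,
      Finset.sum_range_zero, P_zero, P_one]
    norm_num
  · intro m hm
    rw [hB]
    apply div_le_div_of_nonneg_right _ hT0p.le
    have h2 : P 2 ≤ 4926 / 10000 := by rw [P_two]; norm_num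
    refine le_trans ?_ h2
    rcases Nat.even_or_odd' (m + 1) with ⟨k, hk | hk⟩
    · obtain ⟨l, rfl⟩ : ∃ l, k = l + 2 := ⟨k - 2, by omega⟩
      have : m + 1 = 2 * (l + 1) + 2 := by omega
      rw [this]
      exact b2 l
    · obtain ⟨l, rfl⟩ : ∃ l, k = l + 1 := ⟨k - 1, by omega⟩
      rw [hk]
      exact b1 l

end Pool.Agent.Run7.h354.KR
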